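import Mathlib

open Set Filter Topology

namespace Pool.Agent.Results.MP_7b51c2_an.UarLin

/-- The space `ℓ₁`. -/
abbrev L1 : Type := lp (fun _ : ℕ => ℝ) 1

/-- Lin's norm; the indices are shifted by one, so `γ` runs over `8^{k+1}/(1+8^{k+1})`, `k ≥ 0`. -/
noncomputable def linNorm (x : L1) : ℝ :=
  ⨆ k : ℕ, (8 ^ (k + 1) / (1 + 8 ^ (k + 1)) : ℝ) * ∑' n, |x (n + k)|

/-- The closed unit ball of Lin's norm. -/
def B : Set L1 := {x | linNorm x ≤ 1}

theorem summable (x : L1) : Summable (fun n => |x n|) := by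
  have := (lp.memℓp x).summable (by norm_num)
  simpa using this

theorem norm_eq (x : L1) : ‖x‖ = ∑' n, |x n| := by
  have := lp.norm_eq_tsum_rpow (p := 1) (by norm_num) x
  simpa using this

/-- Build an element of `ℓ₁`. -/
noncomputable def mk (f : ℕ → ℝ) (hf : Summable fun n => |f n|) : L1 :=
  ⟨f, memℓp_gen (by simpa using hf)⟩

theorem mk_apply (f : ℕ → ℝ) (hf : Summable fun n => |f n|) (n : ℕ) : mk f hf n = f n := rfl

theorem tail_le (x : L1) (k : ℕ) : ∑' n, |x (n + k)| ≤ ‖x‖ := by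
  rw [norm_eq, ← (summable x).sum_add_tsum_nat_add k]
  have : 0 ≤ ∑ i ∈ Finset.range k, |x i| := Finset.sum_nonneg (fun _ _ => abs_nonneg _)
  linarith

theorem gam (k : ℕ) : 0 ≤ (8 ^ (k + 1) / (1 + 8 ^ (k + 1)) : ℝ) ∧
    (8 ^ (k + 1) / (1 + 8 ^ (k + 1)) : ℝ) ≤ 1 := by
  constructor
  · positivity
  · rw [div_le_one (by positivity)]
    linarith

theorem term_le (x : L1) (k : ℕ) :
    (8 ^ (k + 1) / (1 + 8 ^ (k + 1)) : ℝ) * ∑' n, |x (n + k)| ≤ ‖x‖ := by
  obtain ⟨h0, h1⟩ := gam k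
  have h2 : 0 ≤ ∑' n, |x (n + k)| := tsum_nonneg (fun _ => abs_nonneg _)
  have h3 := tail_le x k
  nlinarith

theorem linNorm_le (x : L1) : linNorm x ≤ ‖x‖ := ciSup_le (term_le x)

theorem le_linNorm (x : L1) : ‖x‖ ≤ 9 / 8 * linNorm x := by
  have h : (8 ^ (0 + 1) / (1 + 8 ^ (0 + 1)) : ℝ) * ∑' n, |x (n + 0)| ≤ linNorm x :=
    le_ciSup (f := fun k : ℕ => (8 ^ (k + 1) / (1 + 8 ^ (k + 1)) : ℝ) * ∑' n, |x (n + k)|)
      ⟨‖x‖, by rintro _ ⟨k, rfl⟩; exact term_le x k⟩ 0
  simp only [add_zero, zero_add, pow_one, ← norm_eq] at h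
  linarith

/-- The positive face of the sphere. -/
def Δ : Set L1 := {x | (∀ n, 0 ≤ x n) ∧ ‖x‖ = 1}

theorem Δ_sub : Δ ⊆ B := fun x hx => (linNorm_le x).trans hx.2.le

/-- The shift as a map. -/
noncomputable def S0 (x : L1) : L1 :=
  mk (fun n => match n with | 0 => 0 | n + 1 => x n) (by
    rw [← summable_nat_add_iff 1]
    exact summable x)

theorem S0_zero (x : L1) : S0 x 0 = 0 := rfl
theorem S0_succ (x : L1) (n : ℕ) : S0 x (n + 1) = x n := rfl

theorem S0_norm (x : L1) : ‖S0 x‖ = ‖x‖ := by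
  rw [norm_eq, norm_eq, (summable (S0 x)).tsum_eq_zero_add, S0_zero, abs_zero, zero_add]
  rfl

/-- The right shift. -/
noncomputable def S : L1 →L[ℝ] L1 :=
  LinearMap.mkContinuous
    { toFun := S0
      map_add' := fun x y => by
        apply lp.ext
        funext n
        cases n with
        | zero => show (0 : ℝ) = 0 + 0; ring
        | succ n => rfl
      map_smul' := fun c x => by
        apply lp.ext
        funext n
        cases n with
        | zero => show (0 : ℝ) = c * 0; ring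
        | succ n => rfl } 1
    (fun x => by rw [one_mul]; exact (S0_norm x).le)

theorem S_norm_le : ‖S‖ ≤ 1 := LinearMap.mkContinuous_norm_le _ zero_le_one _

/-- The averaging operator. -/
noncomputable def A : L1 →L[ℝ] L1 := (1 / 2 : ℝ) • (1 + S)

theorem pow_norm_le (k : ℕ) : ‖S ^ k‖ ≤ 1 := by
  induction k with
  | zero => rw [pow_zero]; exact ContinuousLinearMap.norm_id_le
  | succ k ih =>
    rw [pow_succ]
    calc ‖S ^ k * S‖ ≤ ‖S ^ k‖ * ‖S‖ := norm_mul_le _ _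
      _ ≤ 1 * 1 := mul_le_mul ih S_norm_le (norm_nonneg _) zero_le_one
      _ = 1 := one_mul _

theorem expand (n : ℕ) : (1 + S) ^ n * (1 - S) =
    1 + ∑ k ∈ Finset.range (n + 1), ((n.choose (k + 1) : ℝ) - n.choose k) • S ^ (k + 1) := by
  have h1 : (1 + S) ^ n = ∑ k ∈ Finset.range (n + 1), (n.choose k : ℝ) • S ^ k := by
    rw [add_comm, (Commute.one_right S).add_pow]
    refine Finset.sum_congr rfl (fun k _ => ?_)
    rw [one_pow, mul_one, ← nsmul_eq_mul', ← Nat.cast_smul_eq_nsmul ℝ]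
  have h2 : (1 + S) ^ n = 1 + ∑ k ∈ Finset.range (n + 1), (n.choose (k + 1) : ℝ) • S ^ (k + 1) := by
    have h3 : (1 + S) ^ n = ∑ k ∈ Finset.range (n + 2), (n.choose k : ℝ) • S ^ k := by
      rw [Finset.sum_range_succ, ← h1, Nat.choose_succ_self]
      simp
    rw [h3, Finset.sum_range_succ']
    simp [add_comm]
  rw [mul_sub, mul_one]
  conv_lhs => rw [h1]
  rw [Finset.sum_mul]
  have h4 : ∀ k, (n.choose k : ℝ) • S ^ k * S = (n.choose k : ℝ) • S ^ (k + 1) := by
    intro k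
    rw [smul_mul_assoc, pow_succ]
  simp_rw [h4, sub_smul]
  rw [Finset.sum_sub_distrib, ← h1, h2]
  abel

theorem sum_abs (n : ℕ) : ∑ k ∈ Finset.range (n + 1), |(n.choose (k + 1) : ℝ) - n.choose k| ≤
    2 * n.choose (n / 2) - 1 := by
  have hsplit : Finset.range (n + 1) = Finset.range (n / 2) ∪ Finset.Ico (n / 2) (n + 1) := by
    ext k
    simp only [Finset.mem_range, Finset.mem_union, Finset.mem_Ico]
    omega
  have hdis : Disjoint (Finset.range (n / 2)) (Finset.Ico (n / 2) (n + 1)) := by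
    rw [Finset.disjoint_left]
    intro k hk hk'
    simp only [Finset.mem_range] at hk
    simp only [Finset.mem_Ico] at hk'
    omega
  rw [hsplit, Finset.sum_union hdis]
  have h1 : ∑ k ∈ Finset.range (n / 2), |(n.choose (k + 1) : ℝ) - n.choose k| =
      n.choose (n / 2) - 1 := by
    have : ∀ k ∈ Finset.range (n / 2), |(n.choose (k + 1) : ℝ) - n.choose k| =
        (n.choose (k + 1) : ℝ) - n.choose k := by
      intro k hk
      rw [Finset.mem_range] at hk
      have h2 : n.choose k ≤ n.choose (k + 1) := Nat.choose_le_succ_of_lt_half_left hk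
      have h3 : (n.choose k : ℝ) ≤ n.choose (k + 1) := by exact_mod_cast h2
      exact abs_of_nonneg (by linarith)
    rw [Finset.sum_congr rfl this, Finset.sum_range_sub (fun k => (n.choose k : ℝ))]
    simp
  have h2 : ∑ k ∈ Finset.Ico (n / 2) (n + 1), |(n.choose (k + 1) : ℝ) - n.choose k| =
      n.choose (n / 2) := by
    have : ∀ k ∈ Finset.Ico (n / 2) (n + 1), |(n.choose (k + 1) : ℝ) - n.choose k| =
        -((n.choose (k + 1) : ℝ) - n.choose k) := by
      intro k hk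
      rw [Finset.mem_Ico] at hk
      have h3 : n.choose (k + 1) ≤ n.choose k := by
        rcases Nat.lt_or_ge k n with hkn | hkn
        · rw [← Nat.choose_symm (show k + 1 ≤ n from hkn), ← Nat.choose_symm hkn.le]
          have h4 : n - k = (n - (k + 1)) + 1 := by omega
          rw [h4]
          rcases Nat.lt_or_ge (n - (k + 1)) (n / 2) with h5 | h5
          · exact Nat.choose_le_succ_of_lt_half_left h5
          · -- here `n` is odd and `k = n / 2`
            have h6 : n - (k + 1) = n / 2 := by omega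
            have h7 : n = 2 * (n / 2) + 1 := by omega
            rw [h6]
            have h8 := Nat.choose_symm_half (n / 2)
            rw [← h7] at h8
            exact h8.ge
        · have : k = n := by omega
          subst this
          simp
      have h4 : (n.choose (k + 1) : ℝ) ≤ n.choose k := by exact_mod_cast h3
      exact abs_of_nonpos (by linarith)
    rw [Finset.sum_congr rfl this, Finset.sum_neg_distrib,
      Finset.sum_Ico_eq_sub _ (by omega), Finset.sum_range_sub (fun k => (n.choose k : ℝ)),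
      Finset.sum_range_sub (fun k => (n.choose k : ℝ))]
    simp
  rw [h1, h2]
  linarith

theorem norm_bound (n : ℕ) : ‖(1 + S) ^ n * (1 - S)‖ ≤ 2 * n.choose (n / 2) := by
  rw [expand]
  have h1 : ‖(1 : L1 →L[ℝ] L1)‖ ≤ 1 := ContinuousLinearMap.norm_id_le
  have h2 : ‖∑ k ∈ Finset.range (n + 1), ((n.choose (k + 1) : ℝ) - n.choose k) • S ^ (k + 1)‖ ≤
      ∑ k ∈ Finset.range (n + 1), |(n.choose (k + 1) : ℝ) - n.choose k| := by
    refine (norm_sum_le _ _).trans (Finset.sum_le_sum (fun k _ => ?_))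
    rw [norm_smul, Real.norm_eq_abs]
    have := pow_norm_le (k + 1)
    nlinarith [abs_nonneg ((n.choose (k + 1) : ℝ) - n.choose k)]
  have h3 := sum_abs n
  have h4 := norm_add_le (1 : L1 →L[ℝ] L1)
    (∑ k ∈ Finset.range (n + 1), ((n.choose (k + 1) : ℝ) - n.choose k) • S ^ (k + 1))
  linarith

theorem central (m : ℕ) : ((m.centralBinom : ℝ) / 4 ^ m) ^ 2 ≤ 1 / (2 * m + 1) := by
  induction m with
  | zero => simp
  | succ m ih =>
    have h1 := Nat.succ_mul_centralBinom_succ m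
    have h2 : ((m : ℝ) + 1) * (m + 1).centralBinom = 2 * (2 * m + 1) * m.centralBinom := by
      exact_mod_cast h1
    have h3 : ((m + 1).centralBinom : ℝ) / 4 ^ (m + 1) =
        ((2 * m + 1) / (2 * m + 2)) * (m.centralBinom / 4 ^ m) := by
      rw [pow_succ]
      field_simp
      nlinarith [h2]
    rw [h3, mul_pow]
    calc ((2 * (m : ℝ) + 1) / (2 * m + 2)) ^ 2 * (m.centralBinom / 4 ^ m) ^ 2
        ≤ ((2 * (m : ℝ) + 1) / (2 * m + 2)) ^ 2 * (1 / (2 * m + 1)) := by gcongr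
      _ ≤ 1 / (2 * ((m + 1 : ℕ) : ℝ) + 1) := by
        push_cast
        rw [div_pow, div_mul_div_comm, div_le_div_iff₀ (by positivity) (by positivity)]
        have : (0 : ℝ) ≤ m := Nat.cast_nonneg m
        nlinarith

theorem choose_half_bound (n : ℕ) : (n.choose (n / 2) : ℝ) / 2 ^ n ≤
    2 * ((n / 2).centralBinom / 4 ^ (n / 2)) := by
  rcases Nat.even_or_odd n with ⟨m, hm⟩ | ⟨m, hm⟩
  · have h1 : n / 2 = m := by omega
    have h2 : n = 2 * m := by omega
    rw [h1, h2, Nat.centralBinom_eq_two_mul_choose, pow_mul]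
    norm_num
    have : (0 : ℝ) ≤ ((2 * m).choose m : ℝ) / 4 ^ m := by positivity
    linarith
  · have h1 : n / 2 = m := by omega
    rw [h1, hm, Nat.centralBinom_eq_two_mul_choose, pow_succ, pow_mul]
    have h3 : (2 * m + 1).choose m ≤ 2 * ((2 * m).choose m) := by
      rcases m with _ | m
      · simp
      · rw [Nat.choose_succ_succ']
        have := Nat.choose_le_middle m (2 * (m + 1))
        have h4 : 2 * (m + 1) / 2 = m + 1 := by omega
        rw [h4] at this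
        omega
    have h4 : ((2 * m + 1).choose m : ℝ) ≤ 2 * ((2 * m).choose m) := by exact_mod_cast h3
    have h5 : (2 : ℝ) ^ 2 = 4 := by norm_num
    rw [h5, ← div_div]
    have h6 : ((2 * m + 1).choose m : ℝ) / 4 ^ m ≤ 2 * ((2 * m).choose m / 4 ^ m) := by
      rw [← mul_div_assoc]
      gcongr
    have h7 : (0 : ℝ) ≤ ((2 * m).choose m : ℝ) / 4 ^ m := by positivity
    linarith

theorem choose_tendsto : Tendsto (fun n : ℕ => (n.choose (n / 2) : ℝ) / 2 ^ n) atTop (𝓝 0) := by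
  have h1 : Tendsto (fun m : ℕ => ((m.centralBinom : ℝ) / 4 ^ m) ^ 2) atTop (𝓝 0) := by
    refine squeeze_zero (fun m => sq_nonneg _) central ?_
    have h2 : Tendsto (fun m : ℕ => (2 * (m : ℝ) + 1)) atTop atTop :=
      tendsto_atTop_add_const_right _ _
        (tendsto_natCast_atTop_atTop.const_mul_atTop (by norm_num))
    refine h2.inv_tendsto_atTop.congr (fun m => ?_)
    rw [Pi.inv_apply, one_div]
  have h2 : Tendsto (fun m : ℕ => (m.centralBinom : ℝ) / 4 ^ m) atTop (𝓝 0) := by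
    have h3 := (Real.continuous_sqrt.tendsto 0).comp h1
    rw [Real.sqrt_zero] at h3
    refine h3.congr (fun m => ?_)
    exact Real.sqrt_sq (by positivity)
  have h3 : Tendsto (fun n : ℕ => 2 * (((n / 2).centralBinom : ℝ) / 4 ^ (n / 2))) atTop (𝓝 0) := by
    have h4 : Tendsto (fun n : ℕ => n / 2) atTop atTop :=
      Nat.tendsto_div_const_atTop (by norm_num)
    have h5 := (h2.comp h4).const_mul 2
    rw [mul_zero] at h5
    exact h5
  exact squeeze_zero (fun n => by positivity) choose_half_bound h3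

/-- Coordinatewise absolute value. -/
noncomputable def ab (x : L1) : L1 := mk (fun n => |x n|) (by simpa using summable x)

theorem ab_apply (x : L1) (n : ℕ) : ab x n = |x n| := rfl

theorem ab_lip (x y : L1) : ‖ab x - ab y‖ ≤ ‖x - y‖ := by
  rw [norm_eq, norm_eq]
  refine (summable (ab x - ab y)).tsum_le_tsum (fun n => ?_) (summable (x - y))
  exact abs_abs_sub_abs_le_abs_sub (x n) (y n)

theorem ab_norm (x : L1) : ‖ab x‖ = ‖x‖ := by
  rw [norm_eq, norm_eq]
  simp [ab_apply]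

/-- The first unit vector. -/
noncomputable def e0 : L1 := lp.single 1 0 (1 : ℝ)

theorem e0_apply (n : ℕ) : e0 n = if n = 0 then 1 else 0 := by
  unfold e0
  rcases n with _ | n
  · rw [if_pos rfl]
    exact lp.single_apply_self _ _ _
  · rw [if_neg (Nat.succ_ne_zero n)]
    exact lp.single_apply_ne _ _ _ (Nat.succ_ne_zero n)

theorem e0_norm : ‖e0‖ = 1 := by
  unfold e0
  rw [lp.norm_single (by norm_num)]
  simp

/-- The unnormalised retraction. -/
noncomputable def w (x : L1) : L1 := ab x + (max (1 - ‖x‖) 0) • e0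

theorem w_apply (x : L1) (n : ℕ) : w x n = |x n| + max (1 - ‖x‖) 0 * e0 n := rfl

theorem w_nonneg (x : L1) (n : ℕ) : 0 ≤ w x n := by
  rw [w_apply, e0_apply]
  have h1 := le_max_right (1 - ‖x‖) 0
  split_ifs
  · rw [mul_one]; exact add_nonneg (abs_nonneg _) h1
  · rw [mul_zero, add_zero]; exact abs_nonneg _

theorem norm_add_of_nonneg {x y : L1} (hx : ∀ n, 0 ≤ x n) (hy : ∀ n, 0 ≤ y n) :
    ‖x + y‖ = ‖x‖ + ‖y‖ := by
  rw [norm_eq, norm_eq, norm_eq, ← (summable x).tsum_add (summable y)]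
  refine tsum_congr (fun n => ?_)
  show |x n + y n| = |x n| + |y n|
  rw [abs_of_nonneg (hx n), abs_of_nonneg (hy n), abs_of_nonneg (add_nonneg (hx n) (hy n))]

theorem w_norm (x : L1) : 1 ≤ ‖w x‖ := by
  unfold w
  rw [norm_add_of_nonneg (fun n => by rw [ab_apply]; exact abs_nonneg _) (fun n => by
    show 0 ≤ max (1 - ‖x‖) 0 * e0 n
    rw [e0_apply]
    refine mul_nonneg (le_max_right _ _) ?_
    split_ifs <;> norm_num), ab_norm, norm_smul, e0_norm, Real.norm_eq_abs,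
    abs_of_nonneg (le_max_right _ _)]
  have := le_max_left (1 - ‖x‖) 0
  linarith

theorem w_lip (x y : L1) : ‖w x - w y‖ ≤ 2 * ‖x - y‖ := by
  have h1 : w x - w y = (ab x - ab y) + (max (1 - ‖x‖) 0 - max (1 - ‖y‖) 0) • e0 := by
    unfold w
    rw [sub_smul]
    abel
  have h2 : |max (1 - ‖x‖) 0 - max (1 - ‖y‖) 0| ≤ ‖x - y‖ := by
    refine (abs_max_sub_max_le_abs _ _ _).trans ?_
    have h3 : (1 - ‖x‖) - (1 - ‖y‖) = ‖y‖ - ‖x‖ := by ring
    rw [h3, abs_sub_comm]
    exact abs_norm_sub_norm_le x y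
  rw [h1]
  refine (norm_add_le _ _).trans ?_
  rw [norm_smul, e0_norm, mul_one, Real.norm_eq_abs]
  linarith [ab_lip x y]

/-- The retraction onto `Δ`. -/
noncomputable def r (x : L1) : L1 := (‖w x‖⁻¹ : ℝ) • w x

theorem r_mem (x : L1) : r x ∈ Δ := by
  have h := w_norm x
  have hne : ‖w x‖ ≠ 0 := by positivity
  refine ⟨fun n => ?_, ?_⟩
  · show 0 ≤ ‖w x‖⁻¹ * w x n
    exact mul_nonneg (by positivity) (w_nonneg x n)
  · unfold r
    rw [norm_smul, norm_inv, norm_norm, inv_mul_cancel₀ hne]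

theorem r_fix {x : L1} (hx : x ∈ Δ) : r x = x := by
  have h : w x = x := by
    apply lp.ext
    funext n
    rw [w_apply, hx.2, sub_self, max_self, zero_mul, add_zero, abs_of_nonneg (hx.1 n)]
  unfold r
  rw [h, hx.2, inv_one, one_smul]

theorem r_lip (x y : L1) : ‖r x - r y‖ ≤ 4 * ‖x - y‖ := by
  have hx := w_norm x
  have hy := w_norm y
  have hx0 : ‖w x‖ ≠ 0 := by positivity
  have hy0 : ‖w y‖ ≠ 0 := by positivity
  have h1 : r x - r y = (‖w x‖⁻¹ : ℝ) • (w x - w y) +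
      ((‖w x‖⁻¹ : ℝ) * (‖w y‖ - ‖w x‖) * ‖w y‖⁻¹) • w y := by
    have h2 : (‖w x‖⁻¹ : ℝ) * (‖w y‖ - ‖w x‖) * ‖w y‖⁻¹ = ‖w x‖⁻¹ - ‖w y‖⁻¹ := by
      field_simp
    rw [h2, smul_sub, sub_smul]
    unfold r
    abel
  have hinv : (‖w x‖⁻¹ : ℝ) ≤ 1 := inv_le_one_of_one_le₀ hx
  have hinv0 : 0 ≤ (‖w x‖⁻¹ : ℝ) := by positivity
  have h3 : ‖(‖w x‖⁻¹ : ℝ) • (w x - w y)‖ ≤ ‖w x - w y‖ := by
    rw [norm_smul, norm_inv, norm_norm]
    nlinarith [norm_nonneg (w x - w y)]
  have h4 : ‖((‖w x‖⁻¹ : ℝ) * (‖w y‖ - ‖w x‖) * ‖w y‖⁻¹) • w y‖ ≤ ‖w x - w y‖ := by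
    rw [norm_smul, norm_mul, norm_mul, norm_inv, norm_norm, norm_inv, norm_norm, mul_assoc,
      inv_mul_cancel₀ hy0, mul_one, Real.norm_eq_abs]
    have h5 : |‖w y‖ - ‖w x‖| ≤ ‖w x - w y‖ := by
      rw [norm_sub_rev]; exact abs_norm_sub_norm_le _ _
    nlinarith [abs_nonneg (‖w y‖ - ‖w x‖)]
  rw [h1]
  refine (norm_add_le _ _).trans ?_
  linarith [w_lip x y]

/-- The map. -/
noncomputable def T (x : L1) : L1 := A (r x)

theorem A_apply (x : L1) : A x = (1 / 2 : ℝ) • (x + S x) := rfl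

theorem A_mem {x : L1} (hx : x ∈ Δ) : A x ∈ Δ := by
  have hS : ∀ n, 0 ≤ S x n := by
    intro n
    cases n with
    | zero => exact le_rfl
    | succ n => exact hx.1 n
  refine ⟨fun n => ?_, ?_⟩
  · rw [A_apply]
    show 0 ≤ (1 / 2 : ℝ) * (x n + S x n)
    have h1 := hx.1 n
    have h2 := hS n
    linarith
  · rw [A_apply, norm_smul, norm_add_of_nonneg hx.1 hS]
    have : ‖S x‖ = ‖x‖ := S0_norm x
    rw [this, hx.2]
    norm_num

theorem T_mem (x : L1) : T x ∈ Δ := A_mem (r_mem x)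

theorem A_norm : ‖A‖ ≤ 1 := by
  unfold A
  rw [norm_smul]
  have h1 := norm_add_le (1 : L1 →L[ℝ] L1) S
  have h2 : ‖(1 : L1 →L[ℝ] L1)‖ ≤ 1 := ContinuousLinearMap.norm_id_le
  have h3 := S_norm_le
  rw [Real.norm_eq_abs, abs_of_pos (by norm_num : (0 : ℝ) < 1 / 2)]
  linarith

theorem T_lip (x y : L1) : linNorm (T x - T y) ≤ 9 / 2 * linNorm (x - y) := by
  have h1 : T x - T y = A (r x - r y) := by unfold T; rw [map_sub]
  have h2 : ‖A (r x - r y)‖ ≤ ‖r x - r y‖ := by
    have := A.le_opNorm (r x - r y)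
    nlinarith [A_norm, norm_nonneg (r x - r y)]
  have h3 := r_lip x y
  have h4 := le_linNorm (x - y)
  have h5 := linNorm_le (T x - T y)
  rw [h1] at h5 ⊢
  linarith

theorem T_no_fix (x : L1) : T x ≠ x := by
  intro h
  have hx : x ∈ Δ := by rw [← h]; exact T_mem x
  have h1 : A x = x := by
    have : T x = A x := by unfold T; rw [r_fix hx]
    rw [← this]; exact h
  have h2 : ∀ n, (1 / 2 : ℝ) * (x n + S x n) = x n := by
    intro n
    have := congrArg (fun z : L1 => z n) h1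
    exact this
  have h3 : ∀ n, x n = 0 := by
    intro n
    induction n with
    | zero =>
      have h4 := h2 0
      have h5 : S x 0 = 0 := rfl
      rw [h5] at h4
      linarith
    | succ n ih =>
      have h4 := h2 (n + 1)
      have h5 : S x (n + 1) = x n := rfl
      rw [h5, ih] at h4
      linarith
  have h4 := hx.2
  rw [norm_eq] at h4
  simp [h3] at h4

theorem iter (x : L1) (n : ℕ) : T^[n + 1] x = (A ^ (n + 1)) (r x) ∧ T^[n + 1] x ∈ Δ := by
  induction n with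
  | zero => exact ⟨by simp [T], T_mem x⟩
  | succ n ih =>
    rw [Function.iterate_succ_apply']
    refine ⟨?_, T_mem _⟩
    have h1 : T (T^[n + 1] x) = A (T^[n + 1] x) := by
      show A (r (T^[n + 1] x)) = _
      rw [r_fix ih.2]
    rw [h1, ih.1, pow_succ' A (n + 1)]
    rfl

theorem A_pow (n : ℕ) : A ^ n * (1 - A) = ((1 / 2 : ℝ) ^ (n + 1)) • ((1 + S) ^ n * (1 - S)) := by
  have h1 : (1 : L1 →L[ℝ] L1) - A = (1 / 2 : ℝ) • (1 - S) := by
    unfold A
    have : (1 : L1 →L[ℝ] L1) = (1 / 2 : ℝ) • 1 + (1 / 2 : ℝ) • 1 := by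
      rw [← add_smul]; norm_num
    conv_lhs => rw [this]
    rw [smul_add, smul_sub]
    have h2 : (1 / 2 : ℝ) • ((1 / 2 : ℝ) • (1 : L1 →L[ℝ] L1) + (1 / 2 : ℝ) • 1) =
        (1 / 2 : ℝ) • 1 := by rw [← this]
    rw [h2]
    abel
  rw [h1]
  unfold A
  rw [smul_pow, smul_mul_smul_comm, pow_succ]

theorem uar (ε : ℝ) (hε : 0 < ε) : ∃ N : ℕ, ∀ n ≥ N, ∀ x : L1,
    linNorm (T^[n] x - T^[n + 1] x) ≤ ε := by
  obtain ⟨N, hN⟩ := eventually_atTop.mp (choose_tendsto.eventually (gt_mem_nhds hε))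
  refine ⟨N + 1, fun n hn x => ?_⟩
  obtain ⟨m, rfl⟩ : ∃ m, n = m + 1 := ⟨n - 1, by omega⟩
  have h1 : T^[m + 1] x - T^[m + 1 + 1] x = (A ^ (m + 1) * (1 - A)) (r x) := by
    rw [(iter x m).1, (iter x (m + 1)).1, mul_sub, mul_one, ← pow_succ]
    rfl
  refine (linNorm_le _).trans ?_
  rw [h1, A_pow]
  have h2 := ((((1 / 2 : ℝ) ^ (m + 1 + 1)) • ((1 + S) ^ (m + 1) * (1 - S))) :
    L1 →L[ℝ] L1).le_opNorm (r x)
  rw [(r_mem x).2, mul_one, norm_smul, Real.norm_eq_abs, abs_of_pos (by positivity)] at h2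
  refine h2.trans ?_
  have h3 := norm_bound (m + 1)
  have h4 := hN (m + 1) (by omega)
  have h5 : (1 / 2 : ℝ) ^ (m + 1 + 1) * (2 * ((m + 1).choose ((m + 1) / 2))) =
      ((m + 1).choose ((m + 1) / 2) : ℝ) / 2 ^ (m + 1) := by
    rw [pow_succ, one_div, inv_pow]
    field_simp
  calc (1 / 2 : ℝ) ^ (m + 1 + 1) * ‖(1 + S) ^ (m + 1) * (1 - S)‖
      ≤ (1 / 2 : ℝ) ^ (m + 1 + 1) * (2 * ((m + 1).choose ((m + 1) / 2))) := by gcongr
    _ = ((m + 1).choose ((m + 1) / 2) : ℝ) / 2 ^ (m + 1) := h5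
    _ ≤ ε := h4.le

/-- There is a Lipschitz, uniformly asymptotically regular map of the unit ball of Lin's renorming
of `ℓ₁` into itself without fixed points. -/
theorem result : ∃ T : L1 → L1, MapsTo T B B ∧
    (∃ L : ℝ, ∀ x ∈ B, ∀ y ∈ B, linNorm (T x - T y) ≤ L * linNorm (x - y)) ∧
    (∀ ε : ℝ, 0 < ε → ∃ N : ℕ, ∀ n ≥ N, ∀ x ∈ B, linNorm (T^[n] x - T^[n + 1] x) ≤ ε) ∧
    ∀ x ∈ B, T x ≠ x := by
  refine ⟨T, fun x _ => Δ_sub (T_mem x), ⟨9 / 2, fun x _ y _ => T_lip x y⟩, ?_,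
    fun x _ => T_no_fix x⟩
  intro ε hε
  obtain ⟨N, hN⟩ := uar ε hε
  exact ⟨N, fun n hn x _ => hN n hn x⟩

end Pool.Agent.Results.MP_7b51c2_an.UarLin
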